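import Mathlib
import Pool.Agent.N334.CN.Stm

/-!
# CN/CI: S_DIS, S_CON, S_INQ, S_DET
-/

set_option autoImplicit false

namespace Pool.Agent.N91.CN

open Pool.Agent.N334.CN

theorem t_DET : Pool.Agent.N334.CN.S_DET := by
  intro r
  constructor
  · have h : Matrix.det ![uA r, vA r, qA r] = -dA r := by
      rw [Matrix.det_fin_three]
      simp only [uA, vA, qA, dA, Matrix.cons_val_zero, Matrix.cons_val_one, Matrix.cons_val]
      ring
    rw [h, abs_neg]
  · have h : Matrix.det ![uB r, vB r, qB r] = -dB r := by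
      rw [Matrix.det_fin_three]
      simp only [uB, vB, qB, dB, cB, Matrix.cons_val_zero, Matrix.cons_val_one, Matrix.cons_val]
      ring
    rw [h, abs_neg]

theorem t_INQ : Pool.Agent.N334.CN.S_INQ := by
  intro r h0 h21 h10 h01 hc ht
  set p := r 2 with hp
  set q := r 1 with hq
  set t := r 0 with ht'
  by_cases h1 : p ≤ 5 / 27
  · left
    have e : dA r = 49 / 108 + 7 / 18 * (t + q + p) + 2 / 9 * t * p + 13 / 27 * q * p -
        2 / 27 * p ^ 2 := rfl
    rw [e]
    have hx : 24 * t * p + 52 * q * p ≤ 38 * p * (q + t) := by nlinarith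
    have hk : 38 * p * (q + t) - 8 * p ^ 2 < 7 * (p + (q + t)) := by
      by_cases h2 : 38 * p ≤ 7
      · by_cases h3 : p = 0
        · rw [h3]; nlinarith
        · have h4 : 0 < p := lt_of_le_of_ne h0 (Ne.symm h3)
          nlinarith [mul_nonneg (sub_nonneg.2 h2) (by linarith : 0 ≤ q + t)]
      · push Not at h2
        have h5 : (38 * p - 7) * (q + t) ≤ (38 * p - 7) * 2 :=
          mul_le_mul_of_nonneg_left (by linarith) (by linarith)
        nlinarith
    nlinarith
  · right
    push Not at h1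
    have e : dB r = (1 + p) * (1 + 3 / 4 * (t + q) - p / 2) / 2 := rfl
    rw [e]
    have hk : 5 - 22 * p - 27 * p ^ 2 + (q + t) * (81 / 2 * p - 17 / 2) < 0 := by
      by_cases h2 : 81 / 2 * p ≤ 17 / 2
      · nlinarith [mul_nonneg (by linarith : 0 ≤ q + t) (sub_nonneg.2 h2)]
      · push Not at h2
        have hpp : p ≤ 37 / 100 := by
          by_contra hcon
          push Not at hcon
          nlinarith [mul_pos (by linarith : 0 < p - 37 / 100) (by linarith : 0 < p)]
        by_cases h3 : p ≤ 1 / 4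
        · have hxs : q + t ≤ 3 / 2 - p := by nlinarith
          have h6 : (q + t) * (81 / 2 * p - 17 / 2) ≤ (3 / 2 - p) * (81 / 2 * p - 17 / 2) :=
            mul_le_mul_of_nonneg_right hxs (by linarith)
          nlinarith
        · push Not at h3
          have h7 : 2 * p * (q + t) ≤ 2 * p ^ 2 + 1 - 2 * p := by
            nlinarith [mul_nonneg (by linarith : 0 ≤ 1 + t - 2 * p) (by linarith : 0 ≤ q + p - 2 * p)]
          have h8 : 2 * p * (q + t) * (81 / 2 * p - 17 / 2) ≤
              (2 * p ^ 2 + 1 - 2 * p) * (81 / 2 * p - 17 / 2) :=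
            mul_le_mul_of_nonneg_right h7 (by linarith)
          have h9 : 0 < -27 * p ^ 3 + 142 * p ^ 2 - 135 / 2 * p + 17 / 2 := by
            nlinarith [mul_nonneg (sq_nonneg (p - 256 / 1000)) (by linarith : 0 ≤ 37 / 100 - p),
              sq_nonneg (p - 256 / 1000)]
          have h10' : 2 * p * (5 - 22 * p - 27 * p ^ 2 + (q + t) * (81 / 2 * p - 17 / 2)) < 0 := by
            nlinarith
          by_contra hcon
          push Not at hcon
          nlinarith [mul_nonneg (by linarith : 0 ≤ 2 * p) hcon]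
    nlinarith

theorem t_CON : Pool.Agent.N334.CN.S_CON := by
  intro P r hs hb hd hr hdet h21 h10
  have hdet' := (abs_le.1 hdet).2
  rw [Matrix.det_fin_three] at hdet'
  have b := fun n m => (abs_le.1 (hb n m)).2
  have s0 := hs 0
  have s1 := hs 1
  have s2 := hs 2
  have d0 := hd 0
  have d1 := hd 1
  have d2 := hd 2
  have r0 := hr 0
  have r1 := hr 1
  have r2 := hr 2
  have b01 := b 0 1
  have b02 := b 0 2
  have b10 := b 1 0
  have b12 := b 1 2
  have b20 := b 2 0
  have b21 := b 2 1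
  rw [d0] at s0 hdet'
  rw [d1] at s1 hdet'
  rw [d2] at s2 hdet'
  have e0 : P 0 1 = 1 + r 0 - P 0 2 := by linarith
  have e1 : P 1 0 = 1 + r 1 - P 1 2 := by linarith
  have e2 : P 2 0 = 1 + r 2 - P 2 1 := by linarith
  generalize P 0 1 = x0 at *
  generalize P 0 2 = y0 at *
  generalize P 1 0 = a1 at *
  generalize P 1 2 = y1 at *
  generalize P 2 0 = a2 at *
  generalize P 2 1 = x2 at *
  generalize r 0 = ρ at *
  generalize r 1 = σ at *
  generalize r 2 = τ at *
  have hdd : (σ + x0) * (τ + y0) - (y1 - y0) * (x2 - x0) ≤ 1 := by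
    subst e0 e1 e2
    linarith [hdet']
  have hx0 : ρ ≤ x0 := by linarith
  have hy0 : ρ ≤ y0 := by linarith
  have hy1 : σ ≤ y1 := by linarith
  have hx2 : τ ≤ x2 := by linarith
  have hρ1 : ρ ≤ 1 := by linarith
  have hxy : x0 + y0 = 1 + ρ := by linarith
  by_cases hc : y1 < y0 ∧ x2 < x0
  · have h1 : (y0 - y1) * (x0 - x2) ≤ (y0 - σ) * (x0 - τ) :=
      mul_le_mul (by linarith) (by linarith) (by linarith [hc.2]) (by linarith)
    have h2 : (σ + x0) * (τ + y0) - (y0 - σ) * (x0 - τ) = (σ + τ) * (x0 + y0) := by ring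
    have h3 : (y1 - y0) * (x2 - x0) = (y0 - y1) * (x0 - x2) := by ring
    rw [hxy] at h2
    linarith
  · have h1 : (y1 - y0) * (x2 - x0) ≤ (1 - y0) * (1 - x0) := by
      have hpos : 0 ≤ (1 - y0) * (1 - x0) := mul_nonneg (by linarith) (by linarith)
      by_cases ha : y0 ≤ y1
      · by_cases hb' : x0 ≤ x2
        · exact mul_le_mul (by linarith) (by linarith) (by linarith) (by linarith)
        · push Not at hb'
          have : (y1 - y0) * (x2 - x0) ≤ 0 :=
            mul_nonpos_of_nonneg_of_nonpos (by linarith) (by linarith)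
          linarith
      · push Not at ha
        have hb' : x0 ≤ x2 := by
          by_contra hh
          push Not at hh
          exact hc ⟨ha, hh⟩
        have : (y1 - y0) * (x2 - x0) ≤ 0 :=
          mul_nonpos_of_nonpos_of_nonneg (by linarith) (by linarith)
        linarith
    have h2 : σ * τ + σ * y0 + τ * x0 + ρ ≤ 1 := by nlinarith
    have h3 : σ * ρ + τ ≤ σ * y0 + τ * x0 := by
      have : x0 = 1 + ρ - y0 := by linarith
      subst this
      nlinarith [mul_nonneg (by linarith : 0 ≤ σ - τ) (by linarith : 0 ≤ y0 - ρ)]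
    nlinarith [mul_nonneg (by linarith : 0 ≤ ρ - σ) (by linarith : 0 ≤ 1 - τ)]

theorem int_lt {K : Set V} (hK : ∀ x ∈ K, x 0 + x 1 + x 2 ≤ 1) {u : V} (hu : u ∈ interior K) :
    u 0 + u 1 + u 2 < 1 := by
  have hc : Continuous (fun ε : ℝ => u + ε • (1 : V)) := by fun_prop
  have hnhds : interior K ∈ nhds ((fun ε : ℝ => u + ε • (1 : V)) 0) := by
    simpa using isOpen_interior.mem_nhds hu
  have hev := (hc.tendsto 0).eventually hnhds
  obtain ⟨δ, hδ, hball⟩ := Metric.eventually_nhds_iff.1 hev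
  have h1 := hball (y := δ / 2) (by rw [Real.dist_eq, sub_zero, abs_of_pos (by linarith)]; linarith)
  have h2 := hK _ (interior_subset h1)
  simp at h2
  linarith

theorem key {K : Set V} {r : V} (hr : ∀ n, 0 ≤ r n) (hK : ∀ x ∈ K, 0 ≤ x 0 + x 1 + x 2 ∧
    x 0 + x 1 + x 2 ≤ 1 ∧ ∀ n, -(r n * (x 0 + x 1 + x 2)) ≤ x n ∧ x n ≤ x 0 + x 1 + x 2)
    {u v D : V} (hu : u ∈ interior K) (hv : v ∈ K) (hD : v = u + D) (hS : Sep r D) : False := by
  have h1 := int_lt (fun x hx => (hK x hx).2.1) hu
  obtain ⟨ht, hc⟩ := hS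
  have hv0 : ∀ n, v n = u n + D n := fun n => by rw [hD]; rfl
  obtain ⟨v1, v2, v3⟩ := hK v hv
  obtain ⟨u1, u2, u3⟩ := hK u (interior_subset hu)
  have hsum : v 0 + v 1 + v 2 = u 0 + u 1 + u 2 + (D 0 + D 1 + D 2) := by
    rw [hv0 0, hv0 1, hv0 2]; ring
  rcases hc with hc | ⟨n, hc | hc⟩
  · linarith
  · have a1 := (v3 n).2
    have a2 := (u3 n).1
    have a3 := hv0 n
    have a4 : r n * (u 0 + u 1 + u 2) ≤ r n * 1 := mul_le_mul_of_nonneg_left u2 (hr n)
    linarith
  · have a1 := (v3 n).1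
    have a2 := (u3 n).2
    have a3 := hv0 n
    rw [hsum] at a1
    have a4 : r n * (u 0 + u 1 + u 2) ≤ r n * 1 := mul_le_mul_of_nonneg_left u2 (hr n)
    nlinarith

theorem t_DIS : Pool.Agent.N334.CN.S_DIS := by
  intro K r hr hK D hD
  rw [Set.disjoint_left]
  intro z hz hz'
  have him : (fun x : V => x + D) '' K = (Homeomorph.addRight D) '' K := rfl
  rw [him, ← Homeomorph.image_interior] at hz'
  obtain ⟨y, hy, hyz⟩ := hz'
  have hyz' : z = y + D := hyz.symm
  rcases hD with h | h
  · exact key hr hK hy (interior_subset hz) hyz' h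
  · refine key hr hK hz (interior_subset hy) ?_ h
    rw [hyz']; abel

end Pool.Agent.N91.CN
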